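import Mathlib

set_option autoImplicit false

open Filter Topology Real

namespace Pool.Agent.H.MP_30e1ee_an

def Fail (𝕜 E F : Type) [RCLike 𝕜] [NormedAddCommGroup E] [NormedSpace 𝕜 E]
    [NormedAddCommGroup F] [NormedSpace 𝕜 F] : Prop :=
  ∃ T : E →L[𝕜] F, (∃ x : ℕ → E, (∀ n, ‖x n‖ = 1) ∧ Tendsto (fun n => ‖T (x n)‖) atTop (𝓝 ‖T‖) ∧
    ¬ ∀ φ : StrongDual 𝕜 E, Tendsto (fun n => φ (x n)) atTop (𝓝 0)) ∧
    ¬ ∃ x, ‖x‖ = 1 ∧ ‖T x‖ = ‖T‖

variable {𝕜 E F E' F' : Type} [RCLike 𝕜] [NormedAddCommGroup E] [NormedSpace 𝕜 E]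
  [NormedAddCommGroup F] [NormedSpace 𝕜 F] [NormedAddCommGroup E'] [NormedSpace 𝕜 E']
  [NormedAddCommGroup F'] [NormedSpace 𝕜 F']

lemma Fail.map (h : Fail 𝕜 E F) (B : E' ≃ₗᵢ[𝕜] E) (A : F →ₗᵢ[𝕜] F') : Fail 𝕜 E' F' := by
  obtain ⟨T, ⟨x, h1, h2, h3⟩, h4⟩ := h
  have hn : ‖A.toContinuousLinearMap.comp (T.comp B.toLinearIsometry.toContinuousLinearMap)‖ =
      ‖T‖ := by
    rw [A.norm_toContinuousLinearMap_comp]
    exact T.opNorm_comp_linearIsometryEquiv B
  refine ⟨A.toContinuousLinearMap.comp (T.comp B.toLinearIsometry.toContinuousLinearMap),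
    ⟨fun n => B.symm (x n), by simpa using h1, by simpa [hn] using h2, fun h => h3 fun φ => ?_⟩, ?_⟩
  · simpa using h (φ.comp B.toLinearIsometry.toContinuousLinearMap)
  · rintro ⟨y, a1, a2⟩
    exact h4 ⟨B y, by simpa using a1, by simpa [hn] using a2⟩

lemma abstr [CompleteSpace F] (S : ℕ → E →L[𝕜] F) (V : ℕ → E → E) (φ : E →L[𝕜] 𝕜) (u : F) (c : ℝ)
    (hV : ∀ j f, ‖V j f‖ = ‖f‖) (hφ : ∀ j f, φ (V j f) = φ f)
    (h1 : ∀ k f, ‖S k f‖ ≤ ‖S 0 f‖) (h2 : ∀ f, Tendsto (fun k => S k f) atTop (𝓝 (φ f • u)))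
    (h3 : ∀ j f, ∀ k ≤ j, S k (V j f) = S 0 (V j f)) (h4 : ∀ j f, ‖S 0 (V j f)‖ = ‖S 0 f‖)
    (h5 : ∀ f, ‖φ f • u‖ ≤ c * ‖f‖) (h6 : ∀ f, ‖S 0 f - φ f • u‖ ≤ c * ‖f‖) (h0 : 0 ≤ c)
    (h7 : c < ‖S 0‖) : Fail 𝕜 E F := by
  obtain ⟨M, hM⟩ : ∃ M, M = ‖S 0‖ := ⟨_, rfl⟩
  rw [← hM] at h7
  have hS : ∀ k f, ‖S k f‖ ≤ M * ‖f‖ := fun k f => (h1 k f).trans (hM ▸ (S 0).le_opNorm f)
  obtain ⟨w, hw, hw0⟩ : ∃ w : ℕ → ℝ, HasSum w 1 ∧ ∀ k, 0 < w k :=
    ⟨_, hasSum_geometric_two' 1, fun k => by positivity⟩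
  have hn : ∀ k, ‖((w k : ℝ) : 𝕜)‖ = w k := fun k => by
    rw [RCLike.norm_ofReal, abs_of_pos (hw0 k)]
  have hs : Summable fun k => (w k : 𝕜) • S k := by
    refine .of_norm_bounded (hw.summable.mul_right M) fun k => ?_
    rw [norm_smul, hn]
    exact mul_le_mul_of_nonneg_left ((S k).opNorm_le_bound (by linarith) (hS k)) (hw0 k).le
  obtain ⟨T, hT⟩ := hs
  have hTf : ∀ f, HasSum (fun k => (w k : 𝕜) • S k f) (T f) := fun f => by
    simpa using (ContinuousLinearMap.apply 𝕜 F f).hasSum hT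
  have hb : ∀ f, ∀ g : ℕ → ℝ, ∀ a, HasSum (fun k => w k * g k) a → ∀ y : F,
      (∀ k, ‖S k f - y‖ ≤ g k) → ‖T f - y‖ ≤ a := fun f g a hg y h => by
    have := (hTf f).sub (((RCLike.hasSum_ofReal 𝕜).2 hw).smul_const y)
    simp only [RCLike.ofReal_one, one_smul, ← smul_sub] at this
    refine this.norm_le_of_bounded hg fun k => ?_
    rw [norm_smul, hn]
    exact mul_le_mul_of_nonneg_left (h k) (hw0 k).le
  have hTM : ‖T‖ ≤ M := T.opNorm_le_bound (by linarith) fun f => by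
    simpa using hb f (fun _ => M * ‖f‖) _ (hw.mul_right _) 0 (by simpa using fun k => hS k f)
  have hf : ∀ n : ℕ, ∃ f, ‖f‖ = 1 ∧ M - 1 / (n + 1) < ‖S 0 f‖ := fun n => by
    obtain ⟨x, a1, a2⟩ := (S 0).exists_lt_apply_of_lt_opNorm (r := max (M - 1 / (n + 1)) 0)
      (max_lt (by have : (0 : ℝ) < 1 / (n + 1) := by positivity
                  linarith) (by linarith))
    have hx : x ≠ 0 := by rintro rfl; simp at a2
    have hx' := norm_pos_iff.2 hx
    refine ⟨((‖x‖⁻¹ : ℝ) : 𝕜) • x, by simp [norm_smul, hx], ?_⟩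
    rw [map_smul, norm_smul, RCLike.norm_ofReal, abs_of_pos (by positivity)]
    have := one_le_inv₀ hx' |>.2 a1.le
    nlinarith [le_max_left (M - 1 / (n + 1)) 0, norm_nonneg (S 0 x)]
  choose f f1 f2 using hf
  have hd : ∀ n, ‖T (V n (f n)) - S 0 (V n (f n))‖ ≤ 2 * M * (1 - ∑ k ∈ Finset.range n, w k) := by
    intro n
    refine hb _ (fun k => if k < n then 0 else 2 * M) _ ?_ _ fun k => ?_
    · have a1 : HasSum (fun k => if k < n then w k else 0) (∑ k ∈ Finset.range n, w k) := by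
        have := hasSum_sum_of_ne_finset_zero (f := fun k => if k < n then w k else 0)
          (s := Finset.range n) (L := .unconditional ℕ) (fun k hk => by simpa using fun h => by simp [h] at hk)
        rwa [Finset.sum_congr rfl fun k hk => if_pos (Finset.mem_range.1 hk)] at this
      refine ((hw.sub a1).mul_left (2 * M)).congr_fun fun k => ?_
      split_ifs <;> ring
    · split_ifs with h
      · rw [h3 _ _ _ h.le, sub_self, norm_zero]
      · have a1 := hS k (V n (f n))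
        have a2 := hS 0 (V n (f n))
        rw [hV, f1] at a1 a2
        linarith [norm_sub_le (S k (V n (f n))) (S 0 (V n (f n)))]
  have hlim : Tendsto (fun n : ℕ => M - 1 / ((n : ℝ) + 1) -
      2 * M * (1 - ∑ k ∈ Finset.range n, w k)) atTop (𝓝 M) := by
    have := (tendsto_one_div_add_atTop_nhds_zero_nat.const_sub M).sub
      ((hw.tendsto_sum_nat.const_sub 1).const_mul (2 * M))
    simpa using this
  have hle : ∀ n, ‖T (V n (f n))‖ ≤ ‖T‖ := fun n => by
    simpa [hV, f1] using T.le_opNorm (V n (f n))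
  have hge : ∀ n : ℕ, M - 1 / ((n : ℝ) + 1) - 2 * M * (1 - ∑ k ∈ Finset.range n, w k) ≤
      ‖T (V n (f n))‖ := fun n => by
    have := norm_sub_norm_le (S 0 (V n (f n))) (T (V n (f n)))
    rw [norm_sub_rev, h4] at this
    linarith [hd n, f2 n]
  have hTe : ‖T‖ = M := le_antisymm hTM (le_of_tendsto' hlim fun n => (hge n).trans (hle n))
  refine ⟨T, ⟨fun n => V n (f n), fun n => by rw [hV, f1], ?_, fun h => ?_⟩, ?_⟩
  · rw [hTe]
    exact tendsto_of_tendsto_of_tendsto_of_le_of_le hlim tendsto_const_nhds hge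
      fun n => (hle n).trans hTM
  · have a1 := ((h φ).smul_const u).norm.add_const c
    have a2 := tendsto_one_div_add_atTop_nhds_zero_nat.const_sub M
    have := le_of_tendsto_of_tendsto' a2 a1 fun n => by
      have := norm_sub_norm_le (S 0 (f n)) (φ (f n) • u)
      have a3 := h6 (f n)
      rw [f1] at a3
      simp only [hφ]
      linarith [f2 n]
    simp at this
    linarith
  · rintro ⟨x, a1, a2⟩
    obtain ⟨N, hN⟩ := (((h2 x).norm.eventually_lt_const (u := M)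
      ((h5 x).trans_lt (by rwa [a1, mul_one])))).exists
    have a3 := hw.mul_right M
    have a4 := hb x (fun k => if k = N then ‖S N x‖ else M) _
      ((a3.sub (hasSum_ite_eq N (w N * (M - ‖S N x‖)))).congr_fun fun k => by
        split_ifs with h
        · rw [h]; ring
        · ring) 0 (fun k => by
        split_ifs with h
        · simp [h]
        · simpa [a1] using hS k x)
    rw [sub_zero, a2, hTe] at a4
    nlinarith [hw0 N]

noncomputable def G (s t : ℝ) : ℝ := log (((1 + t) ^ s + (1 - t) ^ s) / 2) / s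

lemma G_lim {s : ℝ} (hs : 1 < s) :
    Tendsto (fun t => G s t / t ^ 2) (𝓝[>] 0) (𝓝 ((s - 1) / 2)) := by
  have hd : ∀ (a t : ℝ), -1 < t → t < 1 → HasDerivAt (fun t : ℝ => (1 + t) ^ a)
      (a * (1 + t) ^ (a - 1)) t ∧ HasDerivAt (fun t : ℝ => (1 - t) ^ a)
      (-(a * (1 - t) ^ (a - 1))) t := fun a t h1 h2 =>
    ⟨(((hasDerivAt_id t).const_add 1).rpow_const (p := a)
        (Or.inl (by simp only [id]; linarith))).congr_deriv (by simp),
      (((hasDerivAt_id t).const_sub 1).rpow_const (p := a)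
        (Or.inl (by simp only [id]; linarith))).congr_deriv (by simp)⟩
  have hc : ContinuousAt (fun t : ℝ => ((1 + t) ^ s + (1 - t) ^ s) / 2) 0 :=
    (((hd s 0 (by norm_num) one_pos).1.add (hd s 0 (by norm_num) one_pos).2).div_const
      2).continuousAt
  have hc' : Tendsto (fun t : ℝ => ((1 + t) ^ s + (1 - t) ^ s) / 2) (𝓝[>] 0) (𝓝 1) := by
    simpa using hc.tendsto.mono_left (nhdsWithin_le_nhds (s := Set.Ioi 0))
  have he : ∀ᶠ t : ℝ in 𝓝[>] 0, 0 < t ∧ t < 1 := Ioo_mem_nhdsGT one_pos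
  refine HasDerivAt.lhopital_zero_nhdsGT (f' := fun t => (s * (1 + t) ^ (s - 1) +
    -(s * (1 - t) ^ (s - 1))) / 2 / (((1 + t) ^ s + (1 - t) ^ s) / 2) / s) (g' := fun t => 2 * t)
    ?_ ?_ ?_ ?_ ?_ ?_
  · filter_upwards [he] with t ht
    have h := hd s t (by linarith [ht.1]) ht.2
    have : 0 < ((1 + t) ^ s + (1 - t) ^ s) / 2 := by
      have := sub_pos.2 ht.2
      have := ht.1
      positivity
    exact (((h.1.add h.2).div_const 2).log this.ne').div_const s
  · exact .of_forall fun t => by simpa using hasDerivAt_pow 2 t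
  · filter_upwards [he] with t ht
    linarith [ht.1]
  · have := (hc'.log one_ne_zero).div_const s
    rwa [log_one, zero_div] at this
  · exact (Continuous.tendsto' (by fun_prop) 0 0 (by simp)).mono_left nhdsWithin_le_nhds
  · have h := hd (s - 1) 0 (by norm_num) one_pos
    have h1 := (h.1.sub h.2).tendsto_slope_zero_right
    have h2 := (h1.div hc' one_ne_zero).div_const 4
    convert h2.congr' ?_ using 2
    · simp; ring
    filter_upwards [he] with t ht
    have : 0 < (1 + t) ^ s + (1 - t) ^ s := by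
      have := sub_pos.2 ht.2
      have := ht.1
      positivity
    have := ht.1
    simp
    field_simp
    ring

lemma two_pt {p q c : ℝ} (hp : 1 < p) (hq : 1 < q) (hc : 0 < c) (h : c ^ 2 * (p - 1) < q - 1) :
    ∃ t : ℝ, c * ((|1 + t| ^ p + |1 - t| ^ p) / 2) ^ p⁻¹ <
      ((|c + t| ^ q + |c - t| ^ q) / 2) ^ q⁻¹ := by
  have h1 : Tendsto (fun t : ℝ => c * t) (𝓝[>] 0) (𝓝[>] 0) :=
    tendsto_nhdsWithin_iff.2 ⟨(Continuous.tendsto' (by fun_prop) 0 0 (by simp)).mono_left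
      nhdsWithin_le_nhds, eventually_mem_nhdsWithin.mono fun t ht => mul_pos hc ht⟩
  have h2 := (((G_lim hp).comp h1).const_mul (c ^ 2)).eventually_lt (G_lim hq) (by linarith)
  have he : ∀ᶠ t : ℝ in 𝓝[>] 0, 0 < t ∧ t < 1 := Ioo_mem_nhdsGT one_pos
  obtain ⟨t, a1, a2, a3⟩ := (h2.and (he.and (h1.eventually he))).exists
  have b0 := a2.1
  have b1 := sub_pos.2 a2.2
  have b2 := sub_pos.2 a3.2
  have b3 : G p (c * t) < G q t := by
    simp only [Function.comp] at a1
    have : c ^ 2 * (G p (c * t) / (c * t) ^ 2) = G p (c * t) / t ^ 2 := by field_simp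
    rwa [this, div_lt_div_iff_of_pos_right (by positivity)] at a1
  refine ⟨c * t, ?_⟩
  rw [show c + c * t = c * (1 + t) by ring, show c - c * t = c * (1 - t) by ring,
    abs_of_pos (by positivity), abs_of_pos b2, abs_of_pos (by positivity),
    abs_of_pos (by positivity), mul_rpow hc.le (by positivity), mul_rpow hc.le b1.le, ← mul_add,
    mul_div_assoc, mul_rpow (by positivity) (by positivity), rpow_rpow_inv hc.le (by linarith)]
  refine mul_lt_mul_of_pos_left ?_ hc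
  rw [rpow_def_of_pos (y := p⁻¹) (by positivity), rpow_def_of_pos (y := q⁻¹) (by positivity)]
  exact exp_lt_exp.2 b3

end Pool.Agent.H.MP_30e1ee_an
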