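import Pool.Agent.H.MP_30e1ee_an.A

set_option autoImplicit false

open Filter Topology Real MeasureTheory Finset
open scoped ENNReal

namespace Pool.Agent.H.MP_30e1ee_an

abbrev Om := ℕ → ZMod 2

noncomputable def mu : Measure Om := Measure.addHaarMeasure ⊤

instance : mu.IsAddHaarMeasure := Measure.isAddHaarMeasure_addHaarMeasure _

instance : IsProbabilityMeasure mu := ⟨Measure.addHaarMeasure_self (K₀ := ⊤)⟩

def r (n : ℕ) (x : Om) : ℝ := if x n = 0 then 1 else -1

@[fun_prop] lemma r_cont (n : ℕ) : Continuous (r n) :=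
  (continuous_of_discreteTopology (f := fun z : ZMod 2 => if z = 0 then (1 : ℝ) else -1)).comp
    (continuous_apply n)

lemma r_add (n : ℕ) (x y : Om) : r n (x + y) = r n x * r n y := by
  have h : ∀ z : ZMod 2, z = 0 ∨ z = 1 := by decide
  have h2 : (1 : ZMod 2) + 1 = 0 := by decide
  simp only [r, Pi.add_apply]
  rcases h (x n) with a | a <;> rcases h (y n) with b | b <;> simp [a, b, h2]

lemma r_single (n m : ℕ) : r n (Pi.single m 1) = if n = m then -1 else 1 := by
  by_cases h : n = m <;> simp [r, h]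

lemma r_cases (n : ℕ) (x : Om) : r n x = 1 ∨ r n x = -1 := by
  unfold r; split_ifs <;> simp

lemma intg {E : Type} [NormedAddCommGroup E] {g : Om → E} (h : Continuous g) : Integrable g mu :=
  h.integrable_of_hasCompactSupport (HasCompactSupport.of_compactSpace _)

lemma avg {h : Om → ℝ} (hc : Continuous h) {n : ℕ} (hi : ∀ x, h (x + Pi.single n 1) = h x)
    {g : ℝ → ℝ} (hg : Continuous g) (b : ℝ) :
    ∫ x, g (h x + b * r n x) ∂mu = ∫ x, (g (h x + b) + g (h x - b)) / 2 ∂mu := by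
  have h1 := integral_add_right_eq_self (μ := mu) (fun x => g (h x + b * r n x)) (Pi.single n 1)
  simp only [hi, r_add, r_single, if_true] at h1
  have h2 := integral_add (μ := mu) (f := fun x => g (h x + b * r n x))
    (g := fun x => g (h x + b * (r n x * -1))) (intg (by fun_prop)) (intg (by fun_prop))
  rw [h1] at h2
  rw [integral_div, eq_div_iff two_ne_zero, mul_two, ← h2]
  refine integral_congr_ae (.of_forall fun x => ?_)
  rcases r_cases n x with a | a <;> simp [a, sub_eq_add_neg, add_comm]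

def X (S : Finset ℕ) (b : ℕ → ℝ) (x : Om) : ℝ := ∑ n ∈ S, b n * r n x

@[fun_prop] lemma X_cont (S : Finset ℕ) (b : ℕ → ℝ) : Continuous (X S b) := by
  unfold X; fun_prop

lemma X_step {S : Finset ℕ} {n : ℕ} (hn : n ∉ S) (b : ℕ → ℝ) {g : ℝ → ℝ} (hg : Continuous g) :
    ∫ x, g (X (insert n S) b x) ∂mu = ∫ x, (g (X S b x + b n) + g (X S b x - b n)) / 2 ∂mu := by
  rw [← avg (X_cont S b) (n := n) (fun x => sum_congr rfl fun m hm => by
    rw [r_add, r_single, if_neg (by rintro rfl; exact hn hm), mul_one]) hg]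
  simp only [X, sum_insert hn, add_comm]

lemma mgf (S : Finset ℕ) (b : ℕ → ℝ) : ∫ x, exp (X S b x) ∂mu ≤ exp ((∑ n ∈ S, b n ^ 2) / 2) := by
  induction S using Finset.induction_on with
  | empty => simp [X]
  | insert n S hn ih =>
    rw [X_step hn b continuous_exp, sum_insert hn, add_div, exp_add]
    have : ∀ x, (exp (X S b x + b n) + exp (X S b x - b n)) / 2 = cosh (b n) * exp (X S b x) :=
      fun x => by rw [cosh_eq, sub_eq_add_neg, exp_add, exp_add]; ring
    simp only [this, integral_const_mul]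
    exact mul_le_mul (cosh_le_exp_half_sq _) ih (integral_nonneg fun _ => (exp_pos _).le)
      (exp_pos _).le

lemma sq_int (S : Finset ℕ) (b : ℕ → ℝ) : ∫ x, X S b x ^ 2 ∂mu = ∑ n ∈ S, b n ^ 2 := by
  induction S using Finset.induction_on with
  | empty => simp [X]
  | insert n S hn ih =>
    rw [X_step hn b (g := fun t => t ^ 2) (by fun_prop), sum_insert hn, ← ih]
    have : ∀ x, ((X S b x + b n) ^ 2 + (X S b x - b n) ^ 2) / 2 = b n ^ 2 + X S b x ^ 2 :=
      fun x => by ring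
    simp only [this]
    rw [integral_add (intg (by fun_prop)) (intg (by fun_prop))]
    simp

lemma apow {s : ℝ} (hs : 0 ≤ s) {g : Om → ℝ} (h : Continuous g) : Continuous fun x => |g x| ^ s :=
  h.abs.rpow_const fun _ => Or.inr hs

lemma big {s : ℝ} (hs : 0 < s) (S : Finset ℕ) (b : ℕ → ℝ) (hb : ∑ n ∈ S, b n ^ 2 ≤ 1) :
    ∫ x, |X S b x| ^ s ∂mu ≤ 2 * (s / exp 1) ^ (s / 2) := by
  have hl := sqrt_pos.2 hs
  have h1 : ∀ t : ℝ, |t| ^ s ≤ √s ^ s * exp (-s) * (exp (√s * t) + exp (-√s * t)) := fun t => by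
    have a1 : |t| ≤ √s * exp (√s * |t| / s - 1) := by
      have := add_one_le_exp (√s * |t| / s - 1)
      have a2 : √s * (√s * |t| / s) = |t| := by
        rw [← mul_div_assoc, ← mul_assoc, mul_self_sqrt hs.le]; field_simp
      nlinarith
    refine (rpow_le_rpow (abs_nonneg _) a1 hs.le).trans ?_
    rw [mul_rpow hl.le (exp_pos _).le, ← exp_mul, mul_assoc]
    refine mul_le_mul_of_nonneg_left ?_ (by positivity)
    rw [show (√s * |t| / s - 1) * s = -s + √s * |t| by field_simp; ring, exp_add]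
    refine mul_le_mul_of_nonneg_left ?_ (by positivity)
    rcases abs_cases t with a | a <;> rw [a.1]
    · linarith [exp_pos (-√s * t)]
    · rw [show √s * -t = -√s * t by ring]
      linarith [exp_pos (√s * t)]
  have h2 : ∀ l : ℝ, l ^ 2 = s → ∫ x, exp (l * X S b x) ∂mu ≤ exp (s / 2) := fun l hl => by
    have := mgf S fun n => l * b n
    simp only [X, mul_assoc, ← mul_sum, mul_pow, hl] at this
    exact this.trans (exp_le_exp.2 (by nlinarith))
  refine (integral_mono (intg (apow hs.le (X_cont S b))) (intg (by fun_prop))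
    fun x => h1 (X S b x)).trans ?_
  rw [integral_const_mul, integral_add (intg (by fun_prop)) (intg (by fun_prop))]
  refine (mul_le_mul_of_nonneg_left (add_le_add (h2 _ (sq_sqrt hs.le))
    (h2 _ (by rw [neg_sq, sq_sqrt hs.le]))) (by positivity)).trans (le_of_eq ?_)
  rw [div_rpow hs.le (exp_pos _).le, ← exp_mul, sqrt_eq_rpow, ← rpow_mul hs.le,
    show -s = -(s / 2) + -(s / 2) by ring, exp_add, exp_neg, one_mul,
    show 1 / 2 * s = s / 2 by ring]
  field_simp
  ring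

lemma big4 {s : ℝ} (hs : 4 ≤ s) (S : Finset ℕ) (b : ℕ → ℝ) (hb : ∑ n ∈ S, b n ^ 2 ≤ 1) :
    ∫ x, |X S b x| ^ s ∂mu ≤ (3 / 5 * s) ^ (s / 2) := by
  refine (big (by linarith) S b hb).trans ?_
  have h1 : (2 : ℝ) ≤ (3 / 2) ^ (s / 2) :=
    le_trans (by norm_num) (rpow_le_rpow_of_exponent_le (y := 2) (by norm_num) (by linarith))
  refine (mul_le_mul_of_nonneg_right h1 (by positivity)).trans ?_
  rw [← mul_rpow (by norm_num) (by positivity)]
  refine rpow_le_rpow (by positivity) ?_ (by linarith)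
  rw [← mul_div_assoc, div_le_iff₀ (exp_pos _)]
  nlinarith [exp_one_gt_d9]

lemma khR {s : ℝ} (hs : 2 ≤ s) : ∃ K : ℝ, 0 < K ∧ K ≤ s - 1 ∧ (2 < s → K < s - 1) ∧
    ∀ (S : Finset ℕ) (b : ℕ → ℝ), ∑ n ∈ S, b n ^ 2 ≤ 1 → ∫ x, |X S b x| ^ s ∂mu ≤ K ^ (s / 2) := by
  rcases le_total 4 s with h | h
  · exact ⟨3 / 5 * s, by linarith, by linarith, fun _ => by linarith, big4 h⟩
  have h1 : 2 < s → (12 / 5 : ℝ) ^ (2 * (s - 2) / s) < s - 1 := fun h2 => by
    refine (rpow_lt_rpow (y := exp 1) (by norm_num) (by linarith [exp_one_gt_d9])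
      (by have := sub_pos.2 h2; positivity)).trans_le ?_
    rw [← exp_mul, one_mul, ← le_log_iff_exp_le (by linarith)]
    have := le_log_one_add_of_nonneg (x := s - 2) (by linarith)
    rwa [show s - 2 + 2 = s by ring, show 1 + (s - 2) = s - 1 by ring] at this
  refine ⟨(12 / 5) ^ (2 * (s - 2) / s), by positivity, ?_, h1, fun S b hb => ?_⟩
  · rcases hs.eq_or_lt with rfl | h2
    · norm_num
    · exact (h1 h2).le
  have h2 : ∀ t : ℝ, |t| ^ s ≤ (12 / 5) ^ (s - 2) *
      ((2 - s / 2) * t ^ 2 + (s / 2 - 1) * (|t| ^ (4 : ℝ) / (12 / 5) ^ (2 : ℝ))) := fun t => by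
    refine le_trans (le_of_eq ?_) (mul_le_mul_of_nonneg_left (geom_mean_le_arith_mean2_weighted
      (by linarith) (by linarith) (by positivity) (by positivity) (by ring)) (by positivity))
    rw [div_rpow (x := |t| ^ (4 : ℝ)) (by positivity) (by positivity), ← rpow_mul (abs_nonneg _),
      ← rpow_mul (by norm_num), ← sq_abs, ← rpow_two, ← rpow_mul (abs_nonneg _),
      show 2 * (s / 2 - 1) = s - 2 by ring, ← mul_div_assoc,
      ← rpow_add' (abs_nonneg _) (by linarith), show 2 * (2 - s / 2) + 4 * (s / 2 - 1) = s by ring]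
    field_simp
  have c4 := apow (s := 4) (by norm_num) (X_cont S b)
  refine (integral_mono (intg (apow (by linarith) (X_cont S b))) (intg (by fun_prop))
    fun x => h2 (X S b x)).trans ?_
  rw [integral_const_mul, integral_add (intg (by fun_prop)) (intg (by fun_prop)),
    integral_const_mul, integral_const_mul, integral_div, sq_int, ← rpow_mul (by norm_num),
    show 2 * (s - 2) / s * (s / 2) = s - 2 by field_simp]
  refine mul_le_of_le_one_right (by positivity) ?_
  have h3 := big4 le_rfl S b hb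
  rw [show (3 / 5 * 4 : ℝ) = 12 / 5 by norm_num, show (4 / 2 : ℝ) = 2 by norm_num,
    ← div_le_one (by positivity)] at h3
  nlinarith

variable {𝕜 : Type} [RCLike 𝕜]

noncomputable def rc (𝕜 : Type) [RCLike 𝕜] (n : ℕ) : C(Om, 𝕜) := ⟨fun x => r n x, by fun_prop⟩

lemma norm_toLp {q : ℝ≥0∞} [Fact (1 ≤ q)] (hq : q ≠ ∞) (g : C(Om, 𝕜)) :
    ‖ContinuousMap.toLp q mu 𝕜 g‖ = (∫ x, ‖g x‖ ^ q.toReal ∂mu) ^ q.toReal⁻¹ := by
  have h0 : q ≠ 0 := (zero_lt_one.trans_le Fact.out).ne'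
  rw [Lp.norm_def, (Lp.memLp _).eLpNorm_eq_integral_rpow_norm h0 hq,
    ENNReal.toReal_ofReal (by positivity)]
  congr 1
  refine integral_congr_ae ?_
  filter_upwards [ContinuousMap.coeFn_toLp (p := q) (𝕜 := 𝕜) mu g] with x hx
  rw [hx]

lemma kh {q : ℝ≥0∞} [Fact (1 ≤ q)] (hq : q ≠ ∞) (hs : 2 ≤ q.toReal) :
    ∃ K : ℝ, 0 < K ∧ K ≤ q.toReal - 1 ∧ (2 < q.toReal → K < q.toReal - 1) ∧
    ∀ (S : Finset ℕ) (b : ℕ → 𝕜), ‖ContinuousMap.toLp q mu 𝕜 (∑ n ∈ S, b n • rc 𝕜 n)‖ ≤
      √(K * ∑ n ∈ S, ‖b n‖ ^ 2) := by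
  obtain ⟨K, h1, h2, h3, h4⟩ := khR hs
  refine ⟨K, h1, h2, h3, fun S b => ?_⟩
  rw [norm_toLp hq]
  generalize q.toReal = s at *
  obtain ⟨α, hα⟩ : ∃ α, α = ∑ n ∈ S, RCLike.re (b n) ^ 2 := ⟨_, rfl⟩
  obtain ⟨β, hβ⟩ : ∃ β, β = ∑ n ∈ S, RCLike.im (b n) ^ 2 := ⟨_, rfl⟩
  have a0 : 0 ≤ α := hα ▸ sum_nonneg fun _ _ => sq_nonneg _
  have b0 : 0 ≤ β := hβ ▸ sum_nonneg fun _ _ => sq_nonneg _
  have hN : ∑ n ∈ S, ‖b n‖ ^ 2 = α + β := by
    rw [hα, hβ, ← sum_add_distrib]
    exact sum_congr rfl fun n _ => by rw [RCLike.norm_sq_eq_def]; ring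
  have key : ∀ (c : ℕ → ℝ) (γ : ℝ), γ = ∑ n ∈ S, c n ^ 2 → (∑ n ∈ S, (c n / √γ) ^ 2 ≤ 1) ∧
      ∀ x, X S c x ^ 2 = γ * X S (fun n => c n / √γ) x ^ 2 := fun c γ hγ => by
    have g0 : 0 ≤ γ := hγ ▸ sum_nonneg fun _ _ => sq_nonneg _
    refine ⟨?_, fun x => ?_⟩
    · simp only [div_pow, sq_sqrt g0, ← sum_div, ← hγ]
      exact div_self_le_one _
    rcases g0.eq_or_lt with h | h
    · have := (sum_eq_zero_iff_of_nonneg fun n _ => sq_nonneg (c n)).1 (hγ.symm.trans h.symm)
      rw [← h, zero_mul, X, sum_eq_zero fun n hn => by rw [pow_eq_zero_iff two_ne_zero |>.1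
        (this n hn), zero_mul]]
      simp
    · simp only [X, div_mul_eq_mul_div, ← sum_div, div_pow, sq_sqrt g0]
      field_simp
  obtain ⟨c1, c2⟩ := key _ _ hα
  obtain ⟨d1, d2⟩ := key _ _ hβ
  have w0 : 0 ≤ α / (α + β) := by positivity
  have w1 : α / (α + β) ≤ 1 := div_le_one_of_le₀ (by linarith) (by linarith)
  have e1 : (α + β) * (α / (α + β)) = α := by
    rcases (add_nonneg a0 b0).eq_or_lt with h | h
    · rw [← h]; linarith
    · field_simp
  have pw : ∀ x, ‖(∑ n ∈ S, b n • rc 𝕜 n) x‖ ^ s ≤ (α + β) ^ (s / 2) * (α / (α + β) *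
      |X S (fun n => RCLike.re (b n) / √α) x| ^ s + (1 - α / (α + β)) *
      |X S (fun n => RCLike.im (b n) / √β) x| ^ s) := fun x => by
    have e2 : ‖(∑ n ∈ S, b n • rc 𝕜 n) x‖ ^ 2 = X S (fun n => RCLike.re (b n)) x ^ 2 +
        X S (fun n => RCLike.im (b n)) x ^ 2 := by
      rw [RCLike.norm_sq_eq_def]
      simp [X, rc, sq]
    have e3 : ∀ t : ℝ, |t| ^ s = (t ^ 2) ^ (s / 2) := fun t => by
      rw [← sq_abs, ← rpow_two, ← rpow_mul (abs_nonneg _), show 2 * (s / 2) = s by ring]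
    rw [← abs_norm, e3, e3, e3, e2, c2, d2]
    refine le_trans (le_of_eq ?_) (mul_le_mul_of_nonneg_left ((convexOn_rpow (p := s / 2)
      (by linarith)).2 (Set.mem_Ici.2 (sq_nonneg _)) (Set.mem_Ici.2 (sq_nonneg _)) w0
      (sub_nonneg.2 w1) (by ring)) (by positivity))
    rw [← mul_rpow (by positivity) (by have := sub_nonneg.2 w1; positivity)]
    congr 1
    simp only [smul_eq_mul]
    linear_combination (X S (fun n => RCLike.im (b n) / √β) x ^ 2 -
      X S (fun n => RCLike.re (b n) / √α) x ^ 2) * e1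
  have c3 := apow (s := s) (by linarith) (X_cont S fun n => RCLike.re (b n) / √α)
  have d3 := apow (s := s) (by linarith) (X_cont S fun n => RCLike.im (b n) / √β)
  have fin : ∫ x, ‖(∑ n ∈ S, b n • rc 𝕜 n) x‖ ^ s ∂mu ≤ (K * (α + β)) ^ (s / 2) := by
    refine (integral_mono (intg ((map_continuous _).norm.rpow_const fun _ => Or.inr (by linarith)))
      (intg (by fun_prop)) pw).trans ?_
    rw [integral_const_mul, integral_add (intg (by fun_prop)) (intg (by fun_prop)),
      integral_const_mul, integral_const_mul, mul_rpow h1.le (by positivity), mul_comm]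
    refine mul_le_mul_of_nonneg_right ?_ (by positivity)
    nlinarith [h4 S _ c1, h4 S _ d1]
  refine (rpow_le_rpow (integral_nonneg fun _ => by positivity) fin (by positivity)).trans
    (le_of_eq ?_)
  rw [hN, ← rpow_mul (by positivity), sqrt_eq_rpow]
  congr 1
  field_simp

end Pool.Agent.H.MP_30e1ee_an
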