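import Pool.Agent.H.MP_30e1ee_an.B

set_option autoImplicit false

open Filter Topology Real MeasureTheory Finset
open scoped ENNReal

namespace Pool.Agent.H.MP_30e1ee_an

variable {𝕜 : Type} [RCLike 𝕜] {p p' q : ℝ≥0∞} [Fact (1 ≤ p)] [Fact (1 ≤ p')] [Fact (1 ≤ q)]
  [p.HolderConjugate p']

noncomputable abbrev tl (q : ℝ≥0∞) [Fact (1 ≤ q)] : C(Om, 𝕜) →L[𝕜] Lp 𝕜 q mu :=
  ContinuousMap.toLp q mu 𝕜

noncomputable def pr (p' : ℝ≥0∞) [Fact (1 ≤ p')] [p.HolderConjugate p'] (g : C(Om, 𝕜)) :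
    Lp 𝕜 p mu →L[𝕜] 𝕜 :=
  ((ContinuousLinearMap.mul 𝕜 𝕜).lpPairing mu p p').flip (tl p' g)

lemma pr_eq (g : C(Om, 𝕜)) (f : Lp 𝕜 p mu) : pr p' g f = ∫ x, f x * g x ∂mu := by
  rw [pr, ContinuousLinearMap.flip_apply, ContinuousLinearMap.lpPairing_eq_integral]
  refine integral_congr_ae ?_
  filter_upwards [ContinuousMap.coeFn_toLp (p := p') (𝕜 := 𝕜) mu g] with x hx
  rw [hx, ContinuousLinearMap.mul_apply']

lemma pr_le (g : C(Om, 𝕜)) (f : Lp 𝕜 p mu) : ‖pr p' g f‖ ≤ ‖f‖ * ‖tl p' g‖ := by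
  have h := (ContinuousLinearMap.mul 𝕜 𝕜).norm_holder_apply_apply_le (r := 1) f (tl p' g)
  have h1 : pr p' g f = L1.integral ((ContinuousLinearMap.mul 𝕜 𝕜).holder 1 f (tl p' g)) := by
    rw [pr, ContinuousLinearMap.flip_apply, ContinuousLinearMap.lpPairing_eq_integral,
      L1.integral_eq_integral]
    exact (integral_congr_ae (ContinuousLinearMap.coeFn_holder _ _ _)).symm
  rw [h1]
  refine (L1.norm_integral_le _).trans (h.trans ?_)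
  rw [mul_assoc]
  exact mul_le_of_le_one_left (by positivity) (ContinuousLinearMap.opNorm_mul_le _ _)

lemma bessel {K : ℝ} (hK : 0 < K) (h : ∀ (S : Finset ℕ) (b : ℕ → 𝕜),
    ‖tl p' (∑ n ∈ S, b n • rc 𝕜 n)‖ ≤ √(K * ∑ n ∈ S, ‖b n‖ ^ 2)) (f : Lp 𝕜 p mu) (S : Finset ℕ) :
    ∑ n ∈ S, ‖pr p' (rc 𝕜 n) f‖ ^ 2 ≤ K * ‖f‖ ^ 2 := by
  have h1 := (pr_le _ f).trans (mul_le_mul_of_nonneg_left
    (h S fun n => starRingEnd 𝕜 (pr p' (rc 𝕜 n) f)) (norm_nonneg f))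
  have h2 : pr p' (∑ n ∈ S, starRingEnd 𝕜 (pr p' (rc 𝕜 n) f) • rc 𝕜 n) f =
      ((∑ n ∈ S, ‖pr p' (rc 𝕜 n) f‖ ^ 2 : ℝ) : 𝕜) := by
    conv_lhs => rw [pr]
    simp only [map_sum, map_smul, _root_.sum_apply, smul_apply, smul_eq_mul]
    push_cast
    exact sum_congr rfl fun n _ => RCLike.conj_mul _
  simp only [RCLike.norm_conj] at h1
  rw [h2, RCLike.norm_ofReal] at h1
  generalize ∑ n ∈ S, ‖pr p' (rc 𝕜 n) f‖ ^ 2 = A at *
  rcases le_or_gt A 0 with h0 | h0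
  · exact h0.trans (by positivity)
  have h3 := pow_le_pow_left₀ (abs_nonneg _) h1 2
  rw [sq_abs, mul_pow, sq_sqrt (by positivity)] at h3
  nlinarith

lemma summ {K C : ℝ} (hK : 0 < K) (h : ∀ (S : Finset ℕ) (b : ℕ → 𝕜),
    ‖tl q (∑ n ∈ S, b n • rc 𝕜 n)‖ ≤ √(K * ∑ n ∈ S, ‖b n‖ ^ 2)) (b : ℕ → 𝕜)
    (hb : ∀ S : Finset ℕ, ∑ n ∈ S, ‖b n‖ ^ 2 ≤ C) :
    ∃ y, HasSum (fun n => b n • tl q (rc 𝕜 n)) y ∧ ‖y‖ ≤ √(K * C) := by
  simp only [map_sum, map_smul] at h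
  have h1 : Summable fun n => ‖b n‖ ^ 2 := summable_of_sum_le (fun _ => sq_nonneg _) hb
  have h2 : Summable fun n => b n • tl q (rc 𝕜 n) := summable_iff_vanishing_norm.2 fun ε hε => by
    obtain ⟨S, hS⟩ := summable_iff_vanishing_norm.1 h1 (ε ^ 2 / K) (by positivity)
    refine ⟨S, fun T hT => (h T b).trans_lt ((sqrt_lt' hε).2 ?_)⟩
    have := (le_abs_self _).trans_lt (hS T hT)
    rwa [lt_div_iff₀' hK] at this
  refine ⟨_, h2.hasSum, le_of_tendsto' h2.hasSum.tendsto_sum_nat.norm fun n =>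
    (h _ b).trans (sqrt_le_sqrt (mul_le_mul_of_nonneg_left (hb _) hK.le))⟩

noncomputable abbrev cp (q : ℝ≥0∞) [Fact (1 ≤ q)] {τ : Om → Om} (h : MeasurePreserving τ mu mu) :
    Lp 𝕜 q mu →ₗᵢ[𝕜] Lp 𝕜 q mu := Lp.compMeasurePreservingₗᵢ 𝕜 τ h

lemma cp_tl {τ : Om → Om} (h : MeasurePreserving τ mu mu) (g g' : C(Om, 𝕜))
    (hg : ∀ x, g (τ x) = g' x) : cp q h (tl q g) = tl q g' := by
  refine Lp.ext ?_
  filter_upwards [Lp.coeFn_compMeasurePreserving (tl q g) h, h.quasiMeasurePreserving.ae_eq_comp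
    (ContinuousMap.coeFn_toLp (p := q) (𝕜 := 𝕜) mu g),
    ContinuousMap.coeFn_toLp (p := q) (𝕜 := 𝕜) mu g'] with x h1 h2 h3
  exact (h1.trans h2).trans ((hg x).trans h3.symm)

lemma pr_cp {τ : Om → Om} (h : MeasurePreserving τ mu mu) (g : C(Om, 𝕜)) (f : Lp 𝕜 p mu) :
    pr p' g (cp p h f) = ∫ x, f (τ x) * g x ∂mu := by
  rw [pr_eq]
  refine integral_congr_ae ?_
  filter_upwards [Lp.coeFn_compMeasurePreserving f h] with x h1
  exact congrArg (· * g x) h1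

lemma pr_cp' {τ : Om → Om} (h : MeasurePreserving τ mu mu) (g g' : C(Om, 𝕜))
    (hg : ∀ x, g (τ x) = g' x) (f : Lp 𝕜 p mu) : pr p' g' (cp p h f) = pr p' g f := by
  have h1 := integral_map (f := fun x => f x * g x) h.aemeasurable (by
    rw [h.map_eq]
    exact (Lp.aestronglyMeasurable f).mul g.continuous.aestronglyMeasurable)
  rw [h.map_eq] at h1
  rw [pr_cp, pr_eq, h1]
  simp only [hg]

lemma odd0 {g : Om → 𝕜} (y : Om) (h : ∀ x, g (x + y) = -g x) : ∫ x, g x ∂mu = 0 := by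
  have := integral_add_right_eq_self (μ := mu) g y
  simp only [h, integral_neg] at this
  exact self_eq_neg.1 this.symm

def sh (j : ℕ) : Om →+ Om where
  toFun x n := x (n + j)
  map_zero' := rfl
  map_add' _ _ := rfl

lemma sh_mp (j : ℕ) : MeasurePreserving (sh j) mu mu :=
  AddMonoidHom.measurePreserving (continuous_pi fun n => continuous_apply (n + j))
    (fun y => ⟨fun n => y (n - j), funext fun n => by simp [sh]⟩) rfl

lemma rc_flip (n m : ℕ) (x : Om) :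
    rc 𝕜 n (x + Pi.single m 1) = (if n = m then -1 else 1) * rc 𝕜 n x := by
  simp only [rc, ContinuousMap.coe_mk, r_add, r_single]
  split_ifs <;> simp

lemma norm_two (hq : q ≠ ∞) (a b : ℝ) : ‖tl q ((a : 𝕜) • 1 + (b : 𝕜) • rc 𝕜 0)‖ =
    ((|a + b| ^ q.toReal + |a - b| ^ q.toReal) / 2) ^ q.toReal⁻¹ := by
  have := avg (h := fun _ => a) continuous_const (n := 0) (fun _ => rfl)
    (g := fun t => |t| ^ q.toReal)
    (continuous_abs.rpow_const fun _ => Or.inr ENNReal.toReal_nonneg) b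
  rw [integral_const, probReal_univ, one_smul] at this
  rw [norm_toLp hq, ← this]
  congr 2
  ext x
  rw [← RCLike.norm_ofReal (K := 𝕜)]
  simp only [rc, ContinuousMap.add_apply, ContinuousMap.smul_apply, ContinuousMap.one_apply,
    smul_eq_mul, mul_one, ContinuousMap.coe_mk, RCLike.ofReal_add, RCLike.ofReal_mul]

lemma exP {K L : ℝ} (k1 : 0 < K) (l1 : 0 < L) (k4 : ∀ (S : Finset ℕ) (b : ℕ → 𝕜),
    ‖tl q (∑ n ∈ S, b n • rc 𝕜 n)‖ ≤ √(K * ∑ n ∈ S, ‖b n‖ ^ 2)) (l4 : ∀ (S : Finset ℕ) (b : ℕ → 𝕜),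
    ‖tl p' (∑ n ∈ S, b n • rc 𝕜 n)‖ ≤ √(L * ∑ n ∈ S, ‖b n‖ ^ 2)) :
    ∃ P : Lp 𝕜 p mu →L[𝕜] Lp 𝕜 q mu, (∀ f, HasSum (fun n => pr p' (rc 𝕜 n) f • tl q (rc 𝕜 n))
      (P f)) ∧ ∀ f, ‖P f‖ ≤ √(K * L) * ‖f‖ := by
  choose P0 hP hP' using fun f : Lp 𝕜 p mu => summ k1 k4 _ (bessel l1 l4 f)
  have hPn : ∀ f, ‖P0 f‖ ≤ √(K * L) * ‖f‖ := fun f => by
    have := hP' f
    rwa [← mul_assoc, sqrt_mul (by positivity), sqrt_sq (norm_nonneg _)] at this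
  have h1 : ∀ f g, P0 (f + g) = P0 f + P0 g := fun f g =>
    (hP _).unique (((hP f).add (hP g)).congr_fun fun n => by rw [map_add, add_smul])
  have h2 : ∀ (a : 𝕜) f, P0 (a • f) = a • P0 f := fun a f =>
    (hP _).unique (((hP f).const_smul a).congr_fun fun n => by rw [map_smul, smul_assoc])
  exact ⟨LinearMap.mkContinuous ⟨⟨P0, h1⟩, h2⟩ _ hPn, hP, hPn⟩

lemma hz (j : ℕ) (f : Lp 𝕜 p mu) : ∀ n < j, pr p' (rc 𝕜 n) (cp p (sh_mp j) f) = 0 := by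
  intro n hn
  rw [pr_cp]
  refine odd0 (Pi.single n 1) fun x => ?_
  have : sh j (Pi.single n 1) = 0 := funext fun m => by
    simp only [sh, AddMonoidHom.coe_mk, ZeroHom.coe_mk, Pi.zero_apply]
    exact Pi.single_eq_of_ne (by omega) _
  rw [map_add, this, add_zero, rc_flip]
  simp

lemma n1 (hs : q ≠ ∞) : ‖tl q (1 : C(Om, 𝕜))‖ = 1 := by
  rw [norm_toLp hs]; simp

section
variable {P : Lp 𝕜 p mu →L[𝕜] Lp 𝕜 q mu}
  (hP : ∀ f, HasSum (fun n => pr p' (rc 𝕜 n) f • tl q (rc 𝕜 n)) (P f))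
include hP

lemma flipk (k : ℕ) (f : Lp 𝕜 p mu) :
    cp q (measurePreserving_add_right mu (fun n => if n < k then 1 else 0 : Om)) (P f) =
      P f - (2 : 𝕜) • ∑ n ∈ range k, pr p' (rc 𝕜 n) f • tl q (rc 𝕜 n) := by
  have hm := measurePreserving_add_right mu (fun n => if n < k then 1 else 0 : Om)
  have a1 := (cp q hm).toContinuousLinearMap.hasSum (hP f)
  have a2 := hasSum_sum_of_ne_finset_zero (f := fun n => if n < k then
    pr p' (rc 𝕜 n) f • tl q (rc 𝕜 n) else 0) (s := range k) (L := .unconditional ℕ)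
    (fun n hn => if_neg (by simpa using hn))
  rw [sum_congr rfl fun k hk => if_pos (mem_range.1 hk)] at a2
  refine a1.unique (((hP f).sub (a2.const_smul (2 : 𝕜))).congr_fun fun n => ?_)
  rw [map_smul, LinearIsometry.coe_toContinuousLinearMap, cp_tl hm (rc 𝕜 n)
    ((if n < k then -1 else 1 : 𝕜) • rc 𝕜 n) fun x => by
      simp only [rc, ContinuousMap.coe_mk, r_add, ContinuousMap.smul_apply]
      split_ifs with h <;> simp [r, h], map_smul]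
  generalize tl q (rc 𝕜 n) = y
  split_ifs <;> module

lemma shP (j : ℕ) (f : Lp 𝕜 p mu) : P (cp p (sh_mp j) f) = cp q (sh_mp j) (P f) := by
  have a1 := (hasSum_nat_add_iff' j).2 (hP (cp p (sh_mp j) f))
  rw [sum_eq_zero fun n hn => by rw [hz j f n (mem_range.1 hn), zero_smul], sub_zero] at a1
  refine a1.unique (((cp q (sh_mp j)).toContinuousLinearMap.hasSum (hP f)).congr_fun
    fun n => ?_)
  rw [map_smul, LinearIsometry.coe_toContinuousLinearMap, cp_tl (sh_mp j) (rc 𝕜 n)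
    (rc 𝕜 (n + j)) fun _ => rfl, pr_cp' _ (rc 𝕜 n) (rc 𝕜 (n + j)) fun _ => rfl]

lemma test (t : ℝ) : pr p' 1 (tl p (((1 : ℝ) : 𝕜) • 1 + (t : 𝕜) • rc 𝕜 0)) = 1 ∧
    P (tl p (((1 : ℝ) : 𝕜) • 1 + (t : 𝕜) • rc 𝕜 0)) = (t : 𝕜) • tl q (rc 𝕜 0) := by
  have a0 : ∀ g : C(Om, 𝕜), pr p' g (tl p (((1 : ℝ) : 𝕜) • 1 + (t : 𝕜) • rc 𝕜 0)) =
      ∫ x, g x ∂mu + t * ∫ x, rc 𝕜 0 x * g x ∂mu := fun g => by
    rw [pr_eq, ← integral_const_mul, ← integral_add (intg (by fun_prop)) (intg (by fun_prop))]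
    refine integral_congr_ae ?_
    filter_upwards [ContinuousMap.coeFn_toLp (p := p) (𝕜 := 𝕜) mu
      (((1 : ℝ) : 𝕜) • 1 + (t : 𝕜) • rc 𝕜 0)] with x hx
    rw [hx]
    simp only [ContinuousMap.add_apply, ContinuousMap.smul_apply, ContinuousMap.one_apply,
      smul_eq_mul, mul_one, RCLike.ofReal_one]
    ring
  have a1 : ∀ n, ∫ x, rc 𝕜 n x ∂mu = 0 := fun n =>
    odd0 (Pi.single n 1) fun x => by rw [rc_flip]; simp
  have a2 : ∀ n, n ≠ 0 → ∫ x, rc 𝕜 0 x * rc 𝕜 n x ∂mu = 0 := fun n hn =>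
    odd0 (Pi.single n 1) fun x => by rw [rc_flip, rc_flip]; simp [hn.symm]
  have a3 : ∀ x, rc 𝕜 0 x * rc 𝕜 0 x = 1 := fun x => by
    rcases r_cases 0 x with h | h <;> simp [rc, h]
  have a4 := (hP (tl p (((1 : ℝ) : 𝕜) • 1 + (t : 𝕜) • rc 𝕜 0))).unique
    (hasSum_single 0 fun n hn => by rw [a0, a1, a2 n hn, mul_zero, add_zero, zero_smul])
  rw [a4, a0, a0]
  simp [a1, a3]

end

end Pool.Agent.H.MP_30e1ee_an
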