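import Pool.Agent.H.MP_30e1ee_an.C
import Pool.Agent.H.MP_86dbc5_an.A

set_option autoImplicit false

open Filter Topology Real MeasureTheory Finset
open scoped ENNReal

namespace Pool.Agent.H.MP_30e1ee_an

variable {𝕜 : Type} [RCLike 𝕜] {p p' q : ℝ≥0∞} [Fact (1 ≤ p)] [Fact (1 ≤ p')] [Fact (1 ≤ q)]
  [p.HolderConjugate p']

include p' in
theorem failOm (hp : 1 < p.toReal) (hp2 : p.toReal ≤ 2) (hq : 2 ≤ q.toReal)
    (hpq : p.toReal < 2 ∨ 2 < q.toReal) : Fail 𝕜 (Lp 𝕜 p mu) (Lp 𝕜 q mu) := by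
  have hpt : p ≠ ∞ := by rintro rfl; norm_num at hp
  have hqt : q ≠ ∞ := by rintro rfl; norm_num at hq
  have hc := ENNReal.HolderConjugate.toReal (p := p) (q := p') hp
  have hpt' : p' ≠ ∞ := by rintro rfl; simpa using hc.symm.pos
  have e1 : (p'.toReal - 1) * (p.toReal - 1) = 1 := by linarith [hc.mul_eq_add]
  have e2 := hc.symm.sub_one_pos
  obtain ⟨K, k1, k2, k3, k4⟩ := kh (𝕜 := 𝕜) hqt hq
  obtain ⟨L, l1, l2, l3, l4⟩ := kh (𝕜 := 𝕜) hpt' (by nlinarith)
  obtain ⟨P, hP, hPn⟩ := exP (p := p) k1 l1 k4 l4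
  clear k4 l4
  have hc0 : 0 < √(K * L) := by positivity
  have hc1 : √(K * L) ^ 2 * (p.toReal - 1) < q.toReal - 1 := by
    rw [sq_sqrt (by positivity), mul_assoc]
    rcases hpq with h | h
    · have := l3 (by nlinarith)
      nlinarith [mul_pos (sub_pos.2 this) (sub_pos.2 hp)]
    · have := k3 h
      nlinarith [mul_nonneg (sub_nonneg.2 l2) (sub_pos.2 hp).le]
  generalize √(K * L) = c at *
  obtain ⟨u, hu0⟩ : ∃ u : Lp 𝕜 q mu, u = (c : 𝕜) • tl q 1 := ⟨_, rfl⟩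
  obtain ⟨S, hS⟩ : ∃ S : ℕ → Lp 𝕜 p mu →L[𝕜] Lp 𝕜 q mu, ∀ k f, S k f = pr p' 1 f • u + P f -
      ∑ n ∈ range k, pr p' (rc 𝕜 n) f • tl q (rc 𝕜 n) :=
    ⟨fun k => (pr p' 1).smulRight u + P -
      ∑ n ∈ range k, (pr p' (rc 𝕜 n)).smulRight (tl q (rc 𝕜 n)), fun k f => by
      simp only [sub_apply, add_apply, _root_.sum_apply, ContinuousLinearMap.smulRight_apply]⟩
  have hS0 : ∀ f, S 0 f = pr p' 1 f • u + P f := fun f => by rw [hS, sum_range_zero, sub_zero]
  have hu : ∀ {τ : Om → Om} (h : MeasurePreserving τ mu mu), cp q h u = u := fun h => by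
    rw [hu0, map_smul, cp_tl h 1 1 fun _ => rfl]
  have hφ : ∀ j (f : Lp 𝕜 p mu), pr p' 1 (cp p (sh_mp j) f) = pr p' (1 : C(Om, 𝕜)) f :=
    fun j f => pr_cp' (sh_mp j) 1 1 (fun _ => rfl) f
  refine abstr S (fun j => cp p (sh_mp j)) (pr p' 1) u c (fun j f => LinearIsometry.norm_map _ f)
    hφ (fun k f => ?_) (fun f => ?_) (fun j f k hk => ?_) (fun j f => ?_) (fun f => ?_)
    (fun f => ?_) hc0.le ?_
  · have hm := measurePreserving_add_right mu (fun n => if n < k then 1 else 0 : Om)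
    have a4 : (2 : 𝕜) • S k f = S 0 f + cp q hm (S 0 f) := by
      rw [hS0, map_add, map_smul, hu, hS, flipk hP]
      generalize ∑ n ∈ range k, pr p' (rc 𝕜 n) f • tl q (rc 𝕜 n) = y
      module
    have a5 := norm_add_le (S 0 f) (cp q hm (S 0 f))
    rw [← a4, norm_smul, LinearIsometry.norm_map, RCLike.norm_two] at a5
    linarith
  · simp only [hS]
    have := (hP f).tendsto_sum_nat.const_sub (pr p' 1 f • u + P f)
    rwa [add_sub_cancel_right] at this
  · rw [hS, hS0, sum_eq_zero fun n hn => by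
      rw [hz j f n ((mem_range.1 hn).trans_le hk), zero_smul], sub_zero]
  · rw [← (cp q (sh_mp j)).norm_map (S 0 f), hS0, hS0, map_add, map_smul, hu, hφ, shP hP]
  · have := pr_le (p' := p') 1 f
    rw [n1 hpt', mul_one] at this
    rw [norm_smul, hu0, norm_smul, n1 hqt, RCLike.norm_ofReal, abs_of_pos hc0, mul_one, mul_comm]
    exact mul_le_mul_of_nonneg_left this hc0.le
  · rw [hS0, add_sub_cancel_left]
    exact hPn f
  · obtain ⟨t, ht⟩ := two_pt hp (by linarith) hc0 hc1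
    rw [← norm_two (𝕜 := 𝕜) hpt, ← norm_two (𝕜 := 𝕜) hqt] at ht
    have a5 : S 0 (tl p (((1 : ℝ) : 𝕜) • 1 + (t : 𝕜) • rc 𝕜 0)) =
        tl q ((c : 𝕜) • 1 + (t : 𝕜) • rc 𝕜 0) := by
      rw [hS0, (test hP t).1, (test hP t).2, one_smul, hu0, map_add, map_smul, map_smul]
    rw [← a5] at ht
    exact lt_of_mul_lt_mul_right (ht.trans_le ((S 0).le_opNorm _)) (norm_nonneg _)

instance : (𝓝[≠] (0 : Om)).NeBot :=
  mem_closure_iff_nhdsWithin_neBot.1 (mem_closure_of_tendsto (b := atTop)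
    (f := fun n : ℕ => (Pi.single n 1 : Om)) (tendsto_pi_nhds.2 fun m =>
      tendsto_const_nhds.congr' ((eventually_gt_atTop m).mono fun n hn =>
        by simp [hn.ne])) (.of_forall fun n => by simp))

theorem main (𝕜 : Type) [RCLike 𝕜] (p q : ℝ≥0∞) [Fact (1 ≤ p)] [Fact (1 ≤ q)] (h1 : 1 < p)
    (h2 : p ≤ 2) (h3 : 2 ≤ q) (h4 : q < ∞) (h5 : (p, q) ≠ (2, 2)) :
    Fail 𝕜 (Lp 𝕜 p (volume : Measure unitInterval)) (Lp 𝕜 q (volume : Measure unitInterval)) := by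
  have := ENNReal.HolderConjugate.conjExponent h1.le
  have : Fact (1 ≤ p.conjExponent) := ⟨ENNReal.HolderConjugate.one_le _ p⟩
  have hp : p ≠ ∞ := (h2.trans_lt (by simp)).ne
  have h := failOm (𝕜 := 𝕜) (p := p) (p' := p.conjExponent) (q := q)
    (by simpa using ENNReal.toReal_strict_mono hp h1)
    (by simpa using ENNReal.toReal_mono (by simp) h2)
    (by simpa using ENNReal.toReal_mono h4.ne h3) (by
      rcases h2.eq_or_lt with a | a
      · exact Or.inr (by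
          simpa using ENNReal.toReal_strict_mono h4.ne (h3.lt_of_ne fun b => h5 (by rw [a, b])))
      · exact Or.inl (by simpa using ENNReal.toReal_strict_mono (by simp) a))
  obtain ⟨f, g, hf, hg, gf, -⟩ := Pool.Agent.H.MP_86dbc5_an.iso01 (μ := mu)
  refine h.map (.ofSurjective (Lp.compMeasurePreservingₗᵢ 𝕜 f hf) fun y =>
    ⟨Lp.compMeasurePreserving g hg y, Lp.ext ?_⟩) (Lp.compMeasurePreservingₗᵢ 𝕜 g hg)
  filter_upwards [Lp.coeFn_compMeasurePreserving (Lp.compMeasurePreserving g hg y) hf,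
    hf.quasiMeasurePreserving.ae_eq_comp (Lp.coeFn_compMeasurePreserving y hg), gf] with x a b c
  exact (a.trans b).trans (congrArg y c)

end Pool.Agent.H.MP_30e1ee_an
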